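import Mathlib
import Pool.Agent.V11332.BKR

namespace Pool.Agent.Results.MP_890654_pr.AllDistinct

open Pool.Agent.V11332.BKR

/-- For every `r` there are a finite nonempty set `S`, a dimension `d ≥ 1` and sets
`A 0, …, A (r-1) ⊆ S^d` such that different bracketings of `A 0 ⋯ A (r-1)` have different
values. -/
theorem result (r : ℕ) :
    ∃ (S : Type) (_ : Nonempty S) (_ : Finite S) (d : ℕ) (_ : 1 ≤ d)
      (A : ℕ → Set (Fin d → S)),
      ∀ T T' : Paren, T.leaves = r → T'.leaves = r → T ≠ T' → prod A T 0 ≠ prod A T' 0 := by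
  classical
  let Κ := Fin r × Fin r × Fin r
  let G : Κ → ℕ → Set (Fin 2 → Bool) := fun k => tri gA gB gC k.1 k.2.1 k.2.2
  let ι := Fin r ⊕ Fin 2
  let e : ι ≃ Fin (r + 2) := finSumFinEquiv
  refine ⟨Option Κ × Bool, ⟨(none, false)⟩, inferInstance, r + 2, by omega,
    fun i => pull e (tagged r G i), ?_⟩
  intro T T' hT hT' hne heq
  rw [prod_pull, prod_pull] at heq
  have heq := pull_inj e heq
  obtain ⟨i, j, k, h1, h2, h3, h4, h5⟩ :=
    exists_triple gadget_ne T T' 0 (hT.trans hT'.symm) hne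
  have hkr : k < r := by omega
  apply h5
  let κ : Κ := (⟨i, by omega⟩, ⟨j, by omega⟩, ⟨k, hkr⟩)
  have hG : G κ = tri gA gB gC i j k := rfl
  ext z
  let x : ι → Option Κ × Bool := Sum.elim (fun _ => (some κ, false)) (fun g => (none, z g))
  have hx : (fun g => (x (Sum.inr g)).2) = z := rfl
  have m1 := tagged_mem (r := r) G κ T 0 (by omega) x (fun _ _ _ => rfl)
  have m2 := tagged_mem (r := r) G κ T' 0 (by omega) x (fun _ _ _ => rfl)
  rw [hx, hG] at m1 m2
  rw [← m1, ← m2, heq]

end Pool.Agent.Results.MP_890654_pr.AllDistinct
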